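import Mathlib
import Pool.Agent.H749.Col.GenA

set_option autoImplicit false

/-!
# The Collatz set is coarsely computable

Let `f` be the Collatz map. The set `A` of the positive integers whose trajectory contains `1` is recursively enumerable. It
is shown that `A` is coarsely computable: the computable set `B` of the integers that reach `1` in at most `8 log_2 n`
steps is contained in `A`, and `A \ B` has natural density `0`. More generally every recursively enumerable set `S` of
positive integers that is invariant (`n ∈ S` iff `f n ∈ S`) contains a computable set `B` such that `S \ B` has natural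
density `0`; and every invariant set with recursively enumerable complement (for instance the set of the integers with a
divergent trajectory) is contained in a computable set `B` such that `B \ S` has natural density `0`.

Method. Almost every trajectory comes down to almost bounded values (natural density form of Tao's theorem, starting file
`MP_2d22f3_nt/AlmostBoundedNaturalDensity`), and in the class of `a` the time after which a trajectory meets that of `a` has
normal order `3 / log (4 / 3) log n < 8 log_2 n` (starting file `MP_2d22f3_nt/CentralLimit`). Let `B` be the set of the `n`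
such that some term among the first `8 log_2 n` is found to be in `S` in the first `n` steps of an enumeration. Up to a set
of small density the trajectory of `n` comes below a constant `y` and, in `8 log_2 n` steps, either below `y` or to a cycle
through an integer `≤ y`; these finitely many integers are all enumerated after a bounded time.
-/

namespace Pool.Agent.Results.MP_e21d3a_lc.CoarselyComputable

open Filter Topology

/-- the Collatz map -/
def f (n : ℕ) : ℕ := if n % 2 = 0 then n / 2 else 3 * n + 1

/-- the set of the problem: the positive integers whose trajectory contains `1` -/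
def A : Set ℕ := {n | 0 < n ∧ ∃ k : ℕ, f^[k] n = 1}

/-- the positive integers `n` whose trajectory contains `1` among the terms `f^[k] n` with `2 ^ k ≤ n ^ 8`, that is
`k ≤ 8 log_2 n` -/
def A₈ : Set ℕ := {n | 0 < n ∧ ∃ k : ℕ, 2 ^ k ≤ n ^ 8 ∧ f^[k] n = 1}

/-- a set of positive integers with `n ∈ S ↔ f n ∈ S` -/
def Invariant (S : Set ℕ) : Prop := 0 ∉ S ∧ ∀ n, 0 < n → (n ∈ S ↔ f n ∈ S)

/-- `S` has natural density `δ`: `#(S ∩ [1, N]) / N → δ` -/
def HasDensity (S : Set ℕ) (δ : ℝ) : Prop :=
  Tendsto (fun N : ℕ => ({n : ℕ | 1 ≤ n ∧ n ≤ N ∧ n ∈ S}.ncard : ℝ) / N) atTop (𝓝 δ)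

theorem re_case (S : Set ℕ) (hS : Invariant S) (hre : REPred fun n => n ∈ S) :
    ∃ B : Set ℕ, B ⊆ S ∧ ComputablePred (fun n => n ∈ B) ∧ HasDensity (S \ B) 0 :=
  Pool.Agent.H749.Col.coarse_general hS.1 hS.2 hre

theorem compl_inv {S : Set ℕ} (hS : Invariant S) : Invariant {n | 0 < n ∧ n ∉ S} := by
  refine ⟨fun h => absurd h.1 (lt_irrefl 0), fun n hn => ?_⟩
  have hf : 0 < f n := Pool.Agent.H749.Col.col_pos n hn
  constructor
  · rintro ⟨-, h⟩; exact ⟨hf, fun h2 => h ((hS.2 n hn).2 h2)⟩
  · rintro ⟨-, h⟩; exact ⟨hn, fun h2 => h ((hS.2 n hn).1 h2)⟩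

theorem pos_comp : ComputablePred fun n : ℕ => 0 < n := by
  rw [ComputablePred.computable_iff]
  refine ⟨fun n => decide (0 < n), (Primrec.nat_lt.comp (Primrec.const 0) Primrec.id).decide.to_comp, ?_⟩
  funext n
  simp

theorem and_comp {p q : ℕ → Prop} (hp : ComputablePred p) (hq : ComputablePred q) :
    ComputablePred fun n => p n ∧ q n := by
  obtain ⟨g, hg, rfl⟩ := ComputablePred.computable_iff.1 hp
  obtain ⟨h, hh, rfl⟩ := ComputablePred.computable_iff.1 hq
  rw [ComputablePred.computable_iff]
  refine ⟨fun n => g n && h n, Primrec.and.to_comp.comp hg hh, ?_⟩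
  funext n
  simp

/-- (1) The set `A₈` of the positive integers that reach `1` in at most `8 log_2 n` steps is a computable subset of the set
`A` of those that reach `1`, and `A \ A₈` has natural density zero: `A` is coarsely computable.
(2) Every recursively enumerable set `S` of positive integers which is invariant under the Collatz map has a computable
subset `B` such that `S \ B` has natural density zero.
(3) Every set `S` of positive integers which is invariant under the Collatz map and whose complement is recursively
enumerable is contained in a computable set `B` such that `B \ S` has natural density zero. -/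
theorem result :
    (A₈ ⊆ A ∧ ComputablePred (fun n => n ∈ A₈) ∧ HasDensity (A \ A₈) 0) ∧
    (∀ S : Set ℕ, Invariant S → REPred (fun n => n ∈ S) →
      ∃ B : Set ℕ, B ⊆ S ∧ ComputablePred (fun n => n ∈ B) ∧ HasDensity (S \ B) 0) ∧
    (∀ S : Set ℕ, Invariant S → REPred (fun n => n ∉ S) →
      ∃ B : Set ℕ, S ⊆ B ∧ ComputablePred (fun n => n ∈ B) ∧ HasDensity (B \ S) 0) := by
  refine ⟨⟨Pool.Agent.H749.Col.B_sub_A, Pool.Agent.H749.Col.B_comp, Pool.Agent.H749.Col.AB_zero⟩, re_case,
    fun S hS hre => ?_⟩
  have hre' : REPred fun n => n ∈ {n : ℕ | 0 < n ∧ n ∉ S} := by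
    obtain ⟨D, hD, hD1, -⟩ := Pool.Agent.H749.Col.stage hre
    have hh : Computable₂ fun n s : ℕ => (decide (0 < n) && D n s) := by
      have h1 : Computable fun x : ℕ × ℕ => decide (0 < x.1) :=
        (Primrec.nat_lt.comp (Primrec.const 0) Primrec.fst).decide.to_comp
      exact Primrec.and.to_comp.comp h1 hD
    refine (Pool.Agent.H749.Col.re_of_exists hh).of_eq fun n => ?_
    simp only [Bool.and_eq_true, decide_eq_true_eq]
    constructor
    · rintro ⟨s, h1, h2⟩; exact ⟨h1, (hD1 n).2 ⟨s, h2⟩⟩
    · rintro ⟨h1, h2⟩
      obtain ⟨s, hs⟩ := (hD1 n).1 h2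
      exact ⟨s, h1, hs⟩
  obtain ⟨B, hB1, hB2, hB3⟩ := re_case _ (compl_inv hS) hre'
  refine ⟨{n | 0 < n ∧ n ∉ B}, fun n hn => ⟨?_, fun h => (hB1 h).2 hn⟩, and_comp pos_comp hB2.not, ?_⟩
  · rcases Nat.eq_zero_or_pos n with rfl | h
    · exact absurd hn hS.1
    · exact h
  · have e : {n : ℕ | 0 < n ∧ n ∉ B} \ S = {n : ℕ | 0 < n ∧ n ∉ S} \ B := by
      ext n
      constructor
      · rintro ⟨⟨h1, h2⟩, h3⟩; exact ⟨⟨h1, h3⟩, h2⟩
      · rintro ⟨⟨h1, h3⟩, h2⟩; exact ⟨⟨h1, h2⟩, h3⟩
    rw [e]
    exact hB3

end Pool.Agent.Results.MP_e21d3a_lc.CoarselyComputable
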