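import Mathlib
import Pool.Agent.H749.Col.Dens

set_option autoImplicit false

/-!
# The Collatz set is computable if and only if its density is a computable real number

Let `f` be the Collatz map and call a set `S` of positive integers invariant if `n ∈ S` iff `f n ∈ S`. The set `A` of
the integers that reach `1` and the set `E` of the integers whose trajectory is eventually periodic are invariant and
recursively enumerable. It is shown that every recursively enumerable invariant set `S` has a natural density `δ`,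
positive if `S` is not empty, and that `S` is computable if and only if the real number `δ` is computable.

Method. Every invariant set has a natural density, with an error term that is uniform in the set, and the density is
positive if the set is not empty (starting file `TH237/RT/Int`, a quantitative form of Tao's theorem). If `S` is
computable, its density can be computed by counting. If the density `δ` of `S` is a computable real, then the complement
of `S` is recursively enumerable: `n ∉ S` if and only if at some stage of the enumerations of `S` and of the class `[n]` of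
the integers whose trajectory meets that of `n` more than `(δ + error) X` elements of `S ∪ [n]` up to some `X` have been
found; for if `n ∉ S` then `S ∪ [n]` is an invariant set of density larger than `δ`.
-/

namespace Pool.Agent.Results.MP_e21d3a_lc.ComputableIffDensityIs

open Filter Topology

/-- the Collatz map -/
def f (n : ℕ) : ℕ := if n % 2 = 0 then n / 2 else 3 * n + 1

/-- the set of the problem: the positive integers whose trajectory contains `1` -/
def A : Set ℕ := {n | 0 < n ∧ ∃ k : ℕ, f^[k] n = 1}

/-- the positive integers whose trajectory is eventually periodic (equivalently, bounded) -/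
def E : Set ℕ := {n | 0 < n ∧ ∃ i j : ℕ, i < j ∧ f^[i] n = f^[j] n}

/-- a set of positive integers with `n ∈ S ↔ f n ∈ S` -/
def Invariant (S : Set ℕ) : Prop := 0 ∉ S ∧ ∀ n, 0 < n → (n ∈ S ↔ f n ∈ S)

/-- `S` has natural density `δ`: `#(S ∩ [1, N]) / N → δ` -/
def HasDensity (S : Set ℕ) (δ : ℝ) : Prop :=
  Tendsto (fun N : ℕ => ({n : ℕ | 1 ≤ n ∧ n ≤ N ∧ n ∈ S}.ncard : ℝ) / N) atTop (𝓝 δ)

/-- The real number `x ≥ 0` is computable: there is a computable sequence of rational numbers `p k / q k` with
`|x - p k / q k| ≤ 1 / (k + 1)`. -/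
def ComputableReal (x : ℝ) : Prop :=
  ∃ p q : ℕ → ℕ, Computable p ∧ Computable q ∧ ∀ k : ℕ, 0 < q k ∧ |x - (p k : ℝ) / q k| ≤ 1 / (k + 1)

open Pool.Agent.H749.Col in
theorem it_primrec : Primrec fun x : ℕ × ℕ => f^[x.2] x.1 :=
  Primrec.nat_iterate Primrec.snd Primrec.fst (col_primrec.comp Primrec.snd)

open Pool.Agent.H749.Col in
theorem A_re : REPred fun n => n ∈ A := by
  have h1 : Primrec fun x : ℕ × ℕ => decide (0 < x.1) :=
    (Primrec.nat_lt.comp (Primrec.const 0) Primrec.fst).decide
  have h2 : Primrec fun x : ℕ × ℕ => decide (f^[x.2] x.1 = 1) :=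
    (Primrec.eq.comp it_primrec (Primrec.const 1)).decide
  refine (re_of_exists (h := fun n k : ℕ => (decide (0 < n) && decide (f^[k] n = 1)))
    (Primrec.and.comp h1 h2).to_comp).of_eq fun n => ?_
  simp only [Bool.and_eq_true, decide_eq_true_eq]
  constructor
  · rintro ⟨k, h, hk⟩; exact ⟨h, k, hk⟩
  · rintro ⟨h, k, hk⟩; exact ⟨k, h, hk⟩

open Pool.Agent.H749.Col in
theorem E_re : REPred fun n => n ∈ E := by
  have h1 : Primrec fun x : ℕ × ℕ => decide (0 < x.1) :=
    (Primrec.nat_lt.comp (Primrec.const 0) Primrec.fst).decide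
  have hu : Primrec fun x : ℕ × ℕ => Nat.unpair x.2 := Primrec.unpair.comp Primrec.snd
  have h2 : Primrec fun x : ℕ × ℕ => decide ((Nat.unpair x.2).1 < (Nat.unpair x.2).2) :=
    (Primrec.nat_lt.comp (Primrec.fst.comp hu) (Primrec.snd.comp hu)).decide
  have h3 : Primrec fun x : ℕ × ℕ => decide (f^[(Nat.unpair x.2).1] x.1 = f^[(Nat.unpair x.2).2] x.1) := by
    have g1 : Primrec fun x : ℕ × ℕ => f^[(Nat.unpair x.2).1] x.1 :=
      it_primrec.comp (Primrec.pair Primrec.fst (Primrec.fst.comp hu))
    have g2 : Primrec fun x : ℕ × ℕ => f^[(Nat.unpair x.2).2] x.1 :=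
      it_primrec.comp (Primrec.pair Primrec.fst (Primrec.snd.comp hu))
    exact (Primrec.eq.comp g1 g2).decide
  refine (re_of_exists (h := fun n t : ℕ => (decide (0 < n) && (decide (t.unpair.1 < t.unpair.2) &&
    decide (f^[t.unpair.1] n = f^[t.unpair.2] n))))
    (Primrec.and.comp h1 (Primrec.and.comp h2 h3)).to_comp).of_eq fun n => ?_
  simp only [Bool.and_eq_true, decide_eq_true_eq]
  constructor
  · rintro ⟨t, h, h4, h5⟩; exact ⟨h, _, _, h4, h5⟩
  · rintro ⟨h, i, j, h4, h5⟩
    exact ⟨Nat.pair i j, h, by simpa using h4, by simpa using h5⟩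

theorem f_pos {n : ℕ} (h : 0 < n) : 0 < f n := Pool.Agent.H749.Col.col_pos n h

theorem A_inv : Invariant A := by
  refine ⟨fun h => absurd h.1 (lt_irrefl 0), fun n hn => ⟨?_, ?_⟩⟩
  · rintro ⟨-, k, hk⟩
    refine ⟨f_pos hn, ?_⟩
    rcases k with _ | k
    · have h1 : n = 1 := hk
      subst h1
      exact ⟨2, by decide⟩
    · exact ⟨k, by rwa [Function.iterate_succ_apply] at hk⟩
  · rintro ⟨-, k, hk⟩
    exact ⟨hn, k + 1, by rw [Function.iterate_succ_apply]; exact hk⟩

theorem E_inv : Invariant E := by
  refine ⟨fun h => absurd h.1 (lt_irrefl 0), fun n hn => ⟨?_, ?_⟩⟩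
  · rintro ⟨-, i, j, hij, h⟩
    refine ⟨f_pos hn, i, j, hij, ?_⟩
    rw [← Function.iterate_succ_apply, ← Function.iterate_succ_apply, Function.iterate_succ_apply',
      Function.iterate_succ_apply', h]
  · rintro ⟨-, i, j, hij, h⟩
    exact ⟨hn, i + 1, j + 1, by omega, by
      rw [Function.iterate_succ_apply, Function.iterate_succ_apply]; exact h⟩

theorem main (S : Set ℕ) (hS : Invariant S) (hre : REPred fun n => n ∈ S) : ∃ δ : ℝ, 0 ≤ δ ∧ δ ≤ 1 ∧
    (δ = 0 ↔ S = ∅) ∧ HasDensity S δ ∧ (ComputablePred (fun n => n ∈ S) ↔ ComputableReal δ) :=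
  Pool.Agent.H749.Col.criterion S hS.1 hS.2 hre

theorem pos_of_mem {S : Set ℕ} {δ : ℝ} (h0 : 0 ≤ δ) (h : δ = 0 ↔ S = ∅) {n : ℕ} (hn : n ∈ S) : 0 < δ := by
  rcases lt_or_eq_of_le h0 with h1 | h1
  · exact h1
  · have h2 := h.1 h1.symm
    rw [h2] at hn
    exact absurd hn (Set.notMem_empty n)

/-- (1) Every recursively enumerable set `S` of positive integers which is invariant under the Collatz map has a natural
density `δ`, which is `0` only if `S` is empty, and `S` is computable if and only if `δ` is a computable real number.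
(2) In particular the set `A` of the positive integers whose trajectory contains `1` is recursively enumerable and has a
positive natural density, and `A` is computable if and only if this density is a computable real number.
(3) The same holds for the set `E` of the positive integers whose trajectory is eventually periodic. -/
theorem result :
    (∀ S : Set ℕ, Invariant S → REPred (fun n => n ∈ S) → ∃ δ : ℝ, 0 ≤ δ ∧ δ ≤ 1 ∧ (δ = 0 ↔ S = ∅) ∧
      HasDensity S δ ∧ (ComputablePred (fun n => n ∈ S) ↔ ComputableReal δ)) ∧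
    (REPred (fun n => n ∈ A) ∧ ∃ δ : ℝ, 0 < δ ∧ δ ≤ 1 ∧ HasDensity A δ ∧
      (ComputablePred (fun n => n ∈ A) ↔ ComputableReal δ)) ∧
    (REPred (fun n => n ∈ E) ∧ ∃ δ : ℝ, 0 < δ ∧ δ ≤ 1 ∧ HasDensity E δ ∧
      (ComputablePred (fun n => n ∈ E) ↔ ComputableReal δ)) := by
  refine ⟨main, ⟨A_re, ?_⟩, ⟨E_re, ?_⟩⟩
  · obtain ⟨δ, h0, h1, h2, h3, h4⟩ := main A A_inv A_re
    exact ⟨δ, pos_of_mem h0 h2 (n := 1) ⟨by norm_num, 0, rfl⟩, h1, h3, h4⟩
  · obtain ⟨δ, h0, h1, h2, h3, h4⟩ := main E E_inv E_re
    exact ⟨δ, pos_of_mem h0 h2 (n := 1) ⟨by norm_num, 0, 3, by norm_num, by decide⟩, h1, h3, h4⟩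

end Pool.Agent.Results.MP_e21d3a_lc.ComputableIffDensityIs
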